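import Mathlib
import Pool.Agent.H78.PB.Stm
import Pool.Agent.N892.BW.FAR

/-!
Project PB, part FAR: the part of the kernel far from the origin does not see the high frequencies
(adapted from `N892/BW/FAR_e` and `N892/BW/FAR`, exponent `501 / 500`).
-/

set_option autoImplicit false

open MeasureTheory Filter Topology Complex Metric FourierTransform
open scoped ComplexConjugate ContDiff SchwartzMap RealInnerProductSpace

namespace Pool.Agent.H11PB.RFAR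

open Pool.Agent.N892.BW Pool.Agent.N892.BW.FAR

/-- the error for a fixed `k` -/
theorem main_bound (Θ : ℂ → ℝ) (h : Cap Θ) (k N : ℕ) : ∃ C : ℝ, 0 ≤ C ∧ ∀ n : ℕ, 1 ≤ n → ∀ y : ℂ, y ≠ 0 →
    ‖iteratedFDeriv ℝ k (fun x => sy n x - ∫ u, sy n u * 𝓕 (Ts Θ h) (x - u)) y‖ ≤
      C * ((‖y‖ ^ N)⁻¹ + ‖y‖ ^ 2 * ((n : ℝ) / ‖y‖) ^ (500 * (N + 2) + (k + 2))) := by
  obtain ⟨C₁, h10, h1⟩ := cb_far (𝓕 (Ts Θ h)) k N
  obtain ⟨C₂, h20, h2⟩ := cb_far (Complex.I • 𝓕 (Ts Θ h)) k N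
  obtain ⟨C₃, h30, h3⟩ := near_main k (500 * (N + 2) + (k + 2)) (by omega)
  refine ⟨C₁ + C₂ + C₃, by positivity, fun n hn y hy => ?_⟩
  have hy' : 0 < ‖y‖ := norm_pos_iff.2 hy
  set w₁ : ℂ → ℝ := fun u => (Af n y u).re with hw₁
  set w₂ : ℂ → ℝ := fun u => (Af n y u).im with hw₂
  have b1 : ∀ u, |w₁ u| ≤ 1 := fun u => (Complex.abs_re_le_norm _).trans (Af_le n hy u)
  have b2 : ∀ u, |w₂ u| ≤ 1 := fun u => (Complex.abs_im_le_norm _).trans (Af_le n hy u)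
  have m1 : Measurable w₁ := Complex.measurable_re.comp (Af_meas n hy)
  have m2 : Measurable w₂ := Complex.measurable_im.comp (Af_meas n hy)
  set G : ℂ → ℂ := fun x => Bf n y x - ∫ u, Bf n y u * 𝓕 (Ts Θ h) (x - u) with hG
  set H₁ : ℂ → ℂ := cb w₁ (𝓕 (Ts Θ h)) with hH₁
  set H₂ : ℂ → ℂ := cb w₂ (Complex.I • 𝓕 (Ts Θ h)) with hH₂
  have hBb : ∀ u, ‖Bf n y u‖ ≤ 2 := by
    intro u
    have h5 : Bf n y u = sy n u - Af n y u := by unfold Af; ring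
    rw [h5]
    have h6 := norm_sub_le (sy n u) (Af n y u)
    have h7 := sy_le (n := n) u
    have h8 := Af_le n hy u
    linarith
  have e : (fun x => sy n x - ∫ u, sy n u * 𝓕 (Ts Θ h) (x - u)) =ᶠ[𝓝 y] (G - (H₁ + H₂)) := by
    filter_upwards [ball_mem_nhds y (show 0 < ‖y‖ / 4 by positivity)] with x hx
    rw [mem_ball, dist_eq_norm] at hx
    have h5 : sy n x = Bf n y x := by
      have := Af_zero n hy x hx.le
      unfold Af at this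
      exact sub_eq_zero.1 this
    have h6 : ∫ u, sy n u * 𝓕 (Ts Θ h) (x - u) = (∫ u, Bf n y u * 𝓕 (Ts Θ h) (x - u)) +
        ∫ u, Af n y u * 𝓕 (Ts Θ h) (x - u) := by
      rw [← integral_add (conv_int (Bf_meas n hy) hBb _ x) (conv_int (Af_meas n hy) (Af_le n hy) _ x)]
      refine integral_congr_ae (Eventually.of_forall fun u => ?_)
      simp only [Af]
      ring
    have h7 := conv_split (Af_meas n hy) (Af_le n hy) (𝓕 (Ts Θ h)) x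
    rw [h6, h7, h5]
    simp only [Pi.sub_apply, Pi.add_apply, hG, hH₁, hH₂, hw₁, hw₂]
    ring
  rw [(e.iteratedFDeriv ℝ k).eq_of_nhds]
  have c0 : ContDiff ℝ k G := (h3 Θ h n hn y hy y).1
  have c1 : ContDiff ℝ k H₁ := (cb_main k ℂ w₁ m1 b1 (𝓕 (Ts Θ h))).1
  have c2 : ContDiff ℝ k H₂ := (cb_main k ℂ w₂ m2 b2 (Complex.I • 𝓕 (Ts Θ h))).1
  have c12 : ContDiff ℝ k (H₁ + H₂) := c1.add c2
  rw [iteratedFDeriv_sub_apply c0.contDiffAt c12.contDiffAt,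
    iteratedFDeriv_add_apply c1.contDiffAt c2.contDiffAt]
  have n0 := (h3 Θ h n hn y hy y).2
  have n1 := h1 w₁ m1 b1 y ‖y‖ hy' (fun u hu => by
    simp only [hw₁, Af_zero n hy u hu, zero_re])
  have n2 := h2 w₂ m2 b2 y ‖y‖ hy' (fun u hu => by
    simp only [hw₂, Af_zero n hy u hu, zero_im])
  have n3 := norm_sub_le (iteratedFDeriv ℝ k G y) (iteratedFDeriv ℝ k H₁ y + iteratedFDeriv ℝ k H₂ y)
  have n4 := norm_add_le (iteratedFDeriv ℝ k H₁ y) (iteratedFDeriv ℝ k H₂ y)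
  have p1 : 0 ≤ (‖y‖ ^ N)⁻¹ := by positivity
  have p2 : 0 ≤ ‖y‖ ^ 2 * ((n : ℝ) / ‖y‖) ^ (500 * (N + 2) + (k + 2)) := by positivity
  nlinarith [mul_nonneg h10 p2, mul_nonneg h20 p2, mul_nonneg h30 p1]

/-- the numerical part -/
theorem numer (N k n : ℕ) (hn : 1 ≤ n) (Y : ℝ) (hY : (n : ℝ) ^ (501 / 500 : ℝ) / 2 ≤ Y) :
    (Y ^ N)⁻¹ + Y ^ 2 * ((n : ℝ) / Y) ^ (500 * (N + 2) + (k + 2)) ≤
      (2 ^ N + 2 ^ (500 * (N + 2)) * 2 ^ k) * ((n : ℝ) ^ N)⁻¹ := by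
  have hn' : (1 : ℝ) ≤ n := by exact_mod_cast hn
  have h1 : (n : ℝ) ≤ (n : ℝ) ^ (501 / 500 : ℝ) := by
    have := Real.rpow_le_rpow_of_exponent_le hn' (show (1 : ℝ) ≤ 501 / 500 by norm_num)
    rwa [Real.rpow_one] at this
  have hYn : (n : ℝ) / 2 ≤ Y := by linarith
  have hY0 : 0 < Y := by linarith
  have hA : (Y ^ N)⁻¹ ≤ 2 ^ N * ((n : ℝ) ^ N)⁻¹ := by
    rw [← div_eq_mul_inv, ← div_pow, ← inv_div (n : ℝ) 2, inv_pow]
    apply inv_anti₀ (by positivity)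
    exact pow_le_pow_left₀ (by positivity) hYn N
  have hq : (n : ℝ) / Y ≤ 2 := by
    rw [div_le_iff₀ hY0]
    linarith
  have hq0 : 0 ≤ (n : ℝ) / Y := by positivity
  have h100 : ((n : ℝ) / Y) ^ 500 ≤ 2 ^ 500 * (n : ℝ)⁻¹ := by
    have h2 : ((n : ℝ) ^ (501 / 500 : ℝ) / 2) ^ 500 ≤ Y ^ 500 :=
      pow_le_pow_left₀ (by positivity) hY 500
    have h3 : ((n : ℝ) ^ (501 / 500 : ℝ)) ^ 500 = (n : ℝ) ^ 501 := by
      rw [← Real.rpow_natCast, ← Real.rpow_mul (by positivity)]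
      norm_num
    rw [div_pow, h3] at h2
    rw [div_pow, div_le_iff₀ (by positivity)]
    have h4 : (n : ℝ) ^ 501 = (n : ℝ) ^ 500 * n := by ring
    have h5 : (n : ℝ) ^ 500 * n ≤ 2 ^ 500 * Y ^ 500 := by
      rw [← h4]
      rw [div_le_iff₀ (by positivity)] at h2
      linarith
    have h6 : (2 : ℝ) ^ 500 * (n : ℝ)⁻¹ * Y ^ 500 = (2 ^ 500 * Y ^ 500) / n := by
      field_simp
    rw [h6, le_div_iff₀ (by positivity)]
    exact h5
  have hB : Y ^ 2 * ((n : ℝ) / Y) ^ (500 * (N + 2) + (k + 2)) ≤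
      2 ^ (500 * (N + 2)) * 2 ^ k * ((n : ℝ) ^ N)⁻¹ := by
    have h2 : ((n : ℝ) / Y) ^ (500 * (N + 2)) ≤ (2 ^ 500 * (n : ℝ)⁻¹) ^ (N + 2) := by
      rw [pow_mul]
      exact pow_le_pow_left₀ (by positivity) h100 _
    have h3 : ((n : ℝ) / Y) ^ k ≤ 2 ^ k := pow_le_pow_left₀ hq0 hq k
    calc Y ^ 2 * ((n : ℝ) / Y) ^ (500 * (N + 2) + (k + 2)) =
        ((n : ℝ) / Y) ^ (500 * (N + 2)) * ((n : ℝ) / Y) ^ k * (n : ℝ) ^ 2 := by
          rw [pow_add, pow_add]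
          have : Y ^ 2 * ((n : ℝ) / Y) ^ 2 = (n : ℝ) ^ 2 := by
            rw [div_pow]; field_simp
          rw [← this]
          ring
      _ ≤ (2 ^ 500 * (n : ℝ)⁻¹) ^ (N + 2) * 2 ^ k * (n : ℝ) ^ 2 := by gcongr
      _ = _ := by
          rw [mul_pow, ← pow_mul, inv_pow, pow_add (n : ℝ)]
          field_simp
  linarith

theorem main2 (Θ : ℂ → ℝ) (h : Cap Θ) (k N : ℕ) : ∃ C : ℝ, 0 ≤ C ∧ ∀ n : ℕ, 1 ≤ n → ∀ y : ℂ,
    (n : ℝ) ^ (501 / 500 : ℝ) / 2 ≤ ‖y‖ →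
    ‖iteratedFDeriv ℝ k (fun x => sy n x - ∫ u, sy n u * 𝓕 (Ts Θ h) (x - u)) y‖ ≤ C * ((n : ℝ) ^ N)⁻¹ := by
  obtain ⟨C, hC0, hC⟩ := main_bound Θ h k N
  refine ⟨C * (2 ^ N + 2 ^ (500 * (N + 2)) * 2 ^ k), by positivity, fun n hn y hy => ?_⟩
  have hn0 : (0 : ℝ) < n := by
    have : (1 : ℝ) ≤ n := by exact_mod_cast hn
    linarith
  have hy0 : 0 < ‖y‖ := lt_of_lt_of_le (by positivity) hy
  refine (hC n hn y (norm_pos_iff.1 hy0)).trans ?_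
  rw [mul_assoc]
  exact mul_le_mul_of_nonneg_left (numer N k n hn _ hy) hC0

theorem t : Pool.Agent.H78.PB.R_FAR := by
  intro Θ h N
  choose C hC0 hC using fun k => main2 Θ h k N
  refine ⟨∑ k ∈ Finset.range 5, C k, Finset.sum_nonneg fun k _ => hC0 k, ?_⟩
  intro n a hn ha k hk ξ hξ
  have hn' : (1 : ℝ) ≤ n := by exact_mod_cast hn
  have hn0 : (0 : ℝ) < n := by linarith
  set s : ℝ := (n : ℝ) ^ (501 / 500 : ℝ) / a with hs
  have hs0 : 0 < s := by positivity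
  have hξ0 : 0 < ‖ξ‖ := by linarith
  have e : (fun ξ => sy n ξ - mu n Θ s ξ) =
      fun ξ => (fun x => sy n x - ∫ u, sy n u * 𝓕 (Ts Θ h) (x - u)) (s • ξ) := by
    funext ξ
    simp only
    rw [mu_eq Θ h n hs0, sy_smul hs0]
  rw [e]
  have h0 := scale_bound (fun x => sy n x - ∫ u, sy n u * 𝓕 (Ts Θ h) (x - u)) hs0 k ξ
  refine h0.trans ?_
  have hY : (n : ℝ) ^ (501 / 500 : ℝ) / 2 ≤ ‖s • ξ‖ := by
    rw [norm_smul, Real.norm_eq_abs, abs_of_pos hs0, hs]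
    have : (n : ℝ) ^ (501 / 500 : ℝ) / 2 = (n : ℝ) ^ (501 / 500 : ℝ) / a * (a / 2) := by
      field_simp
    rw [this]
    exact mul_le_mul_of_nonneg_left hξ (by positivity)
  have h1 := hC k n hn _ hY
  have h2 : s ^ k ≤ ((n : ℝ) ^ 2 / a) ^ k := by
    refine pow_le_pow_left₀ hs0.le ?_ k
    rw [hs]
    have := Real.rpow_le_rpow_of_exponent_le hn' (show (501 / 500 : ℝ) ≤ 2 by norm_num)
    rw [Real.rpow_two] at this
    exact div_le_div_of_nonneg_right this ha.le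
  have h3 : C k ≤ ∑ k ∈ Finset.range 5, C k :=
    Finset.single_le_sum (f := fun k => C k) (fun k _ => hC0 k) (Finset.mem_range.2 (by omega))
  have h5 : C k * ((n : ℝ) ^ N)⁻¹ ≤ (∑ k ∈ Finset.range 5, C k) * ((n : ℝ) ^ N)⁻¹ :=
    mul_le_mul_of_nonneg_right h3 (by positivity)
  have h6 : 0 ≤ C k * ((n : ℝ) ^ N)⁻¹ := mul_nonneg (hC0 k) (by positivity)
  have h7 : 0 ≤ s ^ k := pow_nonneg hs0.le k
  refine (mul_le_mul_of_nonneg_right (h1.trans h5) h7).trans ?_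
  exact mul_le_mul_of_nonneg_left h2 (h6.trans h5)

end Pool.Agent.H11PB.RFAR
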