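import Mathlib
import Pool.Agent.H78.PB.Stm
import Pool.Agent.N892.BW.NEA

/-!
Project PB, part NEA: the part of the kernel near the origin does not see the low frequencies
(adapted from `N892/BW/NEA`, exponent `499 / 500`).
-/

set_option autoImplicit false

open MeasureTheory ENNReal Filter Topology Complex
open scoped ComplexConjugate ContDiff SchwartzMap FourierTransform

namespace Pool.Agent.H11PB.RNEA

open Pool.Agent.N892.BW Pool.Agent.N892.BW.NEA

/-- NEA: the part of the kernel near the origin does not see the frequencies `‖ξ‖ ≤ 2 b` -/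
theorem t : Pool.Agent.H78.PB.R_NEA := by
  intro Θ hΘ
  obtain ⟨Φ, hΦ⟩ := exists_schwartz hΘ
  have hmu : ∀ (n : ℕ) (s : ℝ), 0 < s →
      mu n Θ s = MM n Φ ∘ (ContinuousLinearMap.mul ℝ ℂ (s : ℂ)) := by
    intro n s hs
    funext ξ
    exact mu_eq hΦ n s hs ξ
  refine ⟨fun n s hs => ?_, fun N => ?_⟩
  · rw [hmu n s hs]
    exact (contDiff_MM n Φ).comp (ContinuousLinearMap.contDiff _)
  · choose C hC hCb using fun k => iter_decay (500 * N) k ℂ Φ
    refine ⟨(∑ k ∈ Finset.range 5, C k) * 3 ^ (500 * N), mul_nonneg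
      (Finset.sum_nonneg fun k _ => hC k) (by positivity), ?_⟩
    intro n a b hn ha hab _ k hk ξ hξ
    have hn' : (1 : ℝ) ≤ n := by exact_mod_cast hn
    have hn0 : (0 : ℝ) < n := by linarith
    have hb : 0 < b := by linarith
    set q : ℝ := (n : ℝ) ^ (499 / 500 : ℝ) with hq
    have hq0 : 0 < q := Real.rpow_pos_of_pos hn0 _
    have hq1 : 1 ≤ q := Real.one_le_rpow hn' (by norm_num)
    have hqn : q ≤ n := by
      calc q ≤ (n : ℝ) ^ (1 : ℝ) := Real.rpow_le_rpow_of_exponent_le hn' (by norm_num)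
        _ = n := Real.rpow_one _
    have hs : 0 < q / b := by positivity
    rw [hmu n _ hs, ContinuousLinearMap.iteratedFDeriv_comp_right _ (contDiff_MM n Φ) ξ
      (by exact_mod_cast le_top)]
    refine (ContinuousMultilinearMap.norm_compContinuousLinearMap_le _ _).trans ?_
    rw [Finset.prod_const, Finset.card_univ, Fintype.card_fin]
    set y : ℂ := (ContinuousLinearMap.mul ℝ ℂ ((q / b : ℝ) : ℂ)) ξ with hy
    have hyn : ‖y‖ ≤ 2 * q := by
      have : y = ((q / b : ℝ) : ℂ) * ξ := rfl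
      rw [this, norm_mul, Complex.norm_real, Real.norm_eq_abs, abs_of_pos hs]
      calc q / b * ‖ξ‖ ≤ q / b * (2 * b) := mul_le_mul_of_nonneg_left hξ hs.le
        _ = 2 * q := by field_simp
    have hL : ‖ContinuousLinearMap.mul ℝ ℂ ((q / b : ℝ) : ℂ)‖ ≤ (n : ℝ) ^ 2 / a := by
      refine (ContinuousLinearMap.opNorm_mul_apply_le ℝ ℂ _).trans ?_
      rw [Complex.norm_real, Real.norm_eq_abs, abs_of_pos hs]
      exact div_le_div₀ (by positivity) (by nlinarith) ha hab
    have h1 := hCb k n y hn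
    have h2 : ((1 + ‖y‖) / n) ^ (500 * N) ≤ 3 ^ (500 * N) * ((n : ℝ) ^ N)⁻¹ := by
      have h3 : (1 + ‖y‖) / n ≤ 3 * (q / n) := by
        rw [← mul_div_assoc]
        exact div_le_div_of_nonneg_right (by linarith) hn0.le
      have h4 : (q / n) ^ (500 * N) = ((n : ℝ) ^ N)⁻¹ := by
        have h5 : (q / n) ^ 500 = (n : ℝ)⁻¹ := by
          have h6 : q ^ 500 = (n : ℝ) ^ 499 := by
            rw [hq, ← Real.rpow_natCast, ← Real.rpow_mul hn0.le]
            norm_num
          rw [div_pow, h6]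
          field_simp
        rw [pow_mul, h5, inv_pow]
      calc ((1 + ‖y‖) / n) ^ (500 * N) ≤ (3 * (q / n)) ^ (500 * N) :=
            pow_le_pow_left₀ (by positivity) h3 _
        _ = 3 ^ (500 * N) * ((n : ℝ) ^ N)⁻¹ := by rw [mul_pow, h4]
    have h7 : C k ≤ ∑ k ∈ Finset.range 5, C k :=
      Finset.single_le_sum (fun k _ => hC k) (Finset.mem_range.2 (by omega))
    have h8 : ‖iteratedFDeriv ℝ k (MM n Φ) y‖ ≤
        (∑ k ∈ Finset.range 5, C k) * 3 ^ (500 * N) * ((n : ℝ) ^ N)⁻¹ := by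
      refine h1.trans ?_
      calc C k * ((1 + ‖y‖) / n) ^ (500 * N) ≤
            (∑ k ∈ Finset.range 5, C k) * (3 ^ (500 * N) * ((n : ℝ) ^ N)⁻¹) :=
            mul_le_mul h7 h2 (by positivity) (Finset.sum_nonneg fun k _ => hC k)
        _ = _ := by ring
    refine mul_le_mul h8 (pow_le_pow_left₀ (norm_nonneg _) hL k) (by positivity) ?_
    exact mul_nonneg (mul_nonneg (Finset.sum_nonneg fun k _ => hC k) (by positivity))
      (by positivity)

end Pool.Agent.H11PB.RNEA
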