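import Mathlib
import Pool.Agent.H78.PB.Stm
import Pool.Agent.N892.BW.PGL

/-!
Project PB, part PGL: interpolation for families of convolution operators, real exponent
(adapted from `N892/BW/PGL`).
-/

set_option autoImplicit false

open MeasureTheory ENNReal Filter Topology Complex Set

namespace Pool.Agent.H11PB.RPGL

open Pool.Agent.N892.BW Pool.Agent.N892.BW.PGL Pool.Agent.H78.PB

theorem enorm_rpow_eq (z : ℂ) {p : ℝ} (hp : 0 ≤ p) : ‖z‖ₑ ^ p = ENNReal.ofReal (‖z‖ ^ p) := by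
  rw [← ENNReal.ofReal_rpow_of_nonneg (norm_nonneg _) hp, ofReal_norm]

theorem main {m : ℝ} (hm : 11 / 10 ≤ m) {c : ℝ} (hc : 0 < c) {L : ℕ} {G : ℕ → ℂ → ℂ}
    (hG : ∀ i, i < L → Continuous (G i) ∧ Integrable (G i) ∧ ∫ x, ‖G i x‖ ≤ c)
    (h2 : ∀ g, Nic2 g →
      (∑ i ∈ Finset.range L, (∫⁻ x, ‖V (G i) g x‖ₑ ^ 2)) ≤ ENNReal.ofReal c * ∫⁻ x, ‖g x‖ₑ ^ 2)
    {f : ℂ → ℂ} (hf : Nic2 f) :
    (∑ i ∈ Finset.range L, Nr m (V (G i) f)) ≤
      ENNReal.ofReal (2 * m * (4 * c) * (1 / (2 * m - 2) * (2 * c) ^ (2 * m - 2))) * Nr m f := by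
  have hp : (0 : ℝ) < 2 * m := by linarith
  have hr : (0 : ℝ) < 2 * m - 2 := by linarith
  set ν : Measure ℂ := volume.withDensity fun x => ‖f x‖ₑ ^ 2 with hν
  have hfm : Measurable f := hf.1
  -- layer cake for every term
  have e1 : ∀ i ∈ Finset.range L, Nr m (V (G i) f) = ENNReal.ofReal (2 * m) *
      ∫⁻ t in Ioi (0 : ℝ), volume {x | t < ‖V (G i) f x‖} * ENNReal.ofReal (t ^ (2 * m - 1)) := by
    intro i hi
    have hi' := hG i (Finset.mem_range.1 hi)
    rw [← lintegral_rpow_eq_lintegral_meas_lt_mul volume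
      (Eventually.of_forall fun x => norm_nonneg _)
      (V_meas hi'.1 hfm).norm.aemeasurable hp]
    unfold Nr
    refine lintegral_congr fun x => ?_
    rw [enorm_rpow_eq _ hp.le]
  rw [Finset.sum_congr rfl e1, ← Finset.mul_sum]
  have hanti : ∀ i, Measurable fun t : ℝ => volume {x | t < ‖V (G i) f x‖} := by
    intro i
    refine Antitone.measurable ?_
    intro s t hst
    exact measure_mono fun x hx => lt_of_le_of_lt hst hx
  have e0 : ∑ i ∈ Finset.range L, ∫⁻ t in Ioi (0 : ℝ), volume {x | t < ‖V (G i) f x‖} *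
      ENNReal.ofReal (t ^ (2 * m - 1)) = ∫⁻ t in Ioi (0 : ℝ), ∑ i ∈ Finset.range L,
        volume {x | t < ‖V (G i) f x‖} * ENNReal.ofReal (t ^ (2 * m - 1)) :=
    (lintegral_finsetSum (μ := volume.restrict (Ioi (0 : ℝ))) (Finset.range L)
      (f := fun i t => volume {x | t < ‖V (G i) f x‖} * ENNReal.ofReal (t ^ (2 * m - 1)))
      (fun i _ => (hanti i).mul (by fun_prop))).symm
  rw [e0]
  -- the bound under the integral
  have e2 : ∀ t ∈ Ioi (0 : ℝ), ∑ i ∈ Finset.range L,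
      volume {x | t < ‖V (G i) f x‖} * ENNReal.ofReal (t ^ (2 * m - 1)) ≤
      ENNReal.ofReal (4 * c) * (ν {x | t < 2 * c * ‖f x‖} *
        ENNReal.ofReal (t ^ (2 * m - 2 - 1))) := by
    intro t ht
    have ht0 : 0 < t := ht
    rw [← Finset.sum_mul]
    have e3 : ∑ i ∈ Finset.range L, volume {x | t < ‖V (G i) f x‖} ≤
        ENNReal.ofReal (4 / t ^ 2) * (ENNReal.ofReal c * ν {x | t < 2 * c * ‖f x‖}) := by
      calc ∑ i ∈ Finset.range L, volume {x | t < ‖V (G i) f x‖}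
          ≤ ∑ i ∈ Finset.range L, ENNReal.ofReal (4 / t ^ 2) *
              ∫⁻ x, ‖V (G i) (hi (t / (2 * c)) f) x‖ₑ ^ 2 := by
            refine Finset.sum_le_sum fun i hi => ?_
            have hi' := hG i (Finset.mem_range.1 hi)
            exact level hi'.1 hi'.2.1 hc hi'.2.2 ht0 hf
        _ ≤ ENNReal.ofReal (4 / t ^ 2) * (ENNReal.ofReal c *
              ∫⁻ x, ‖hi (t / (2 * c)) f x‖ₑ ^ 2) := by
            rw [← Finset.mul_sum]
            gcongr
            exact h2 _ (hi_nic hf)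
        _ = _ := by
            rw [hi_sq hfm]
            congr 3
            ext x
            simp only [Set.mem_ofPred_eq]
            rw [div_lt_iff₀ (by positivity)]
            constructor
            · intro h; linarith
            · intro h; linarith
    calc (∑ i ∈ Finset.range L, volume {x | t < ‖V (G i) f x‖}) *
          ENNReal.ofReal (t ^ (2 * m - 1))
        ≤ (ENNReal.ofReal (4 / t ^ 2) * (ENNReal.ofReal c * ν {x | t < 2 * c * ‖f x‖})) *
          ENNReal.ofReal (t ^ (2 * m - 1)) := by gcongr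
      _ = (ENNReal.ofReal (4 / t ^ 2) * ENNReal.ofReal c * ENNReal.ofReal (t ^ (2 * m - 1))) *
          ν {x | t < 2 * c * ‖f x‖} := by ring
      _ = (ENNReal.ofReal (4 * c) * ENNReal.ofReal (t ^ (2 * m - 2 - 1))) *
          ν {x | t < 2 * c * ‖f x‖} := by
          congr 1
          rw [← ENNReal.ofReal_mul (by positivity), ← ENNReal.ofReal_mul (by positivity),
            ← ENNReal.ofReal_mul (by positivity)]
          congr 1
          have h5 : t ^ (2 * m - 1) = t ^ (2 * m - 2 - 1) * t ^ 2 := by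
            rw [← Real.rpow_natCast t 2, ← Real.rpow_add ht0]
            congr 1
            push_cast
            ring
          rw [h5]
          field_simp
      _ = _ := by ring
  have e4 : ∫⁻ t in Ioi (0 : ℝ), ∑ i ∈ Finset.range L,
      volume {x | t < ‖V (G i) f x‖} * ENNReal.ofReal (t ^ (2 * m - 1)) ≤
      ENNReal.ofReal (4 * c) * ∫⁻ t in Ioi (0 : ℝ), ν {x | t < 2 * c * ‖f x‖} *
        ENNReal.ofReal (t ^ (2 * m - 2 - 1)) := by
    refine (setLIntegral_mono' measurableSet_Ioi e2).trans (le_of_eq ?_)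
    rw [lintegral_const_mul' _ _ ENNReal.ofReal_ne_top]
  -- layer cake for `f`
  have e5 : ENNReal.ofReal (2 * m - 2) * ∫⁻ t in Ioi (0 : ℝ), ν {x | t < 2 * c * ‖f x‖} *
      ENNReal.ofReal (t ^ (2 * m - 2 - 1)) =
      ENNReal.ofReal ((2 * c) ^ (2 * m - 2)) * Nr m f := by
    rw [← lintegral_rpow_eq_lintegral_meas_lt_mul ν
      (Eventually.of_forall fun x => by positivity)
      ((hfm.norm.const_mul (2 * c)).aemeasurable) hr, hν,
      lintegral_withDensity_eq_lintegral_mul _ (hfm.enorm.pow_const 2) (by fun_prop)]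
    unfold Nr
    rw [← lintegral_const_mul' _ _ ENNReal.ofReal_ne_top]
    refine lintegral_congr fun x => ?_
    rw [Pi.mul_apply]
    have h6 : ((2 * c * ‖f x‖) ^ (2 * m - 2)) = (2 * c) ^ (2 * m - 2) * ‖f x‖ ^ (2 * m - 2) :=
      Real.mul_rpow (by positivity) (norm_nonneg _)
    rw [h6, ENNReal.ofReal_mul (by positivity), ← enorm_rpow_eq _ hr.le]
    have h8 : ‖f x‖ₑ ^ (2 * m) = ‖f x‖ₑ ^ 2 * ‖f x‖ₑ ^ (2 * m - 2) := by
      rw [← ENNReal.rpow_natCast, ← ENNReal.rpow_add_of_nonneg _ _ (by positivity) hr.le]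
      congr 1
      push_cast
      ring
    rw [h8]
    ring
  have e6 : ∫⁻ t in Ioi (0 : ℝ), ν {x | t < 2 * c * ‖f x‖} *
      ENNReal.ofReal (t ^ (2 * m - 2 - 1)) =
      ENNReal.ofReal (1 / (2 * m - 2)) * (ENNReal.ofReal ((2 * c) ^ (2 * m - 2)) * Nr m f) := by
    rw [← e5, ← mul_assoc, ← ENNReal.ofReal_mul (by positivity), one_div,
      inv_mul_cancel₀ hr.ne', ENNReal.ofReal_one, one_mul]
  rw [e6] at e4
  refine (mul_le_mul_right e4 _).trans (le_of_eq ?_)
  have e7 : ENNReal.ofReal (2 * (m : ℝ) * (4 * c) * (1 / (2 * m - 2) * (2 * c) ^ (2 * m - 2))) =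
      ENNReal.ofReal (2 * (m : ℝ)) * (ENNReal.ofReal (4 * c) *
        (ENNReal.ofReal (1 / (2 * (m : ℝ) - 2)) * ENNReal.ofReal ((2 * c) ^ (2 * m - 2)))) := by
    rw [← ENNReal.ofReal_mul (by positivity), ← ENNReal.ofReal_mul (by positivity),
      ← ENNReal.ofReal_mul (by positivity)]
    congr 1
    ring
  rw [e7]
  ring

theorem t : R_PGL := by
  rintro m C ⟨hm1, hm2⟩ hC
  have hr : (0 : ℝ) < 2 * m - 2 := by linarith
  have hm0 : 0 < m := by linarith
  refine ⟨2 * m * (4 * (C + 1)) * (1 / (2 * m - 2) * (2 * (C + 1)) ^ (2 * m - 2)), by positivity, ?_⟩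
  intro L G hG h2 f hf
  refine main hm1 (by linarith : 0 < C + 1) (L := L) (G := G) ?_ ?_ hf
  · intro i hi
    exact ⟨(hG i hi).1, (hG i hi).2.1, (hG i hi).2.2.trans (by linarith)⟩
  · intro g hg
    refine (h2 g hg).trans ?_
    gcongr
    linarith

end Pool.Agent.H11PB.RPGL
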