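import Mathlib
import Pool.Agent.H78.PB.Stm
import Pool.Agent.N892.BW.REV

/-!
Project PB, part REV: the reverse square function inequality, real exponent (adapted from `N892/BW/REV`).
-/

set_option autoImplicit false

open MeasureTheory ENNReal Filter Topology Complex
open scoped ComplexConjugate ContDiff

namespace Pool.Agent.H11PB.RREV

open Pool.Agent.N892.BW Pool.Agent.N892.BW.REV Pool.Agent.H78.PB

theorem Nr_zero {m : ℝ} (hm : 0 < m) : Nr m (fun _ => 0) = 0 := by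
  unfold Nr
  simp [ENNReal.zero_rpow_of_pos (show (0 : ℝ) < 2 * m by linarith)]

theorem nr_lt {m : ℝ} (hm : 1 ≤ m) {f : ℂ → ℂ} (hf : Nic2 f) : Nr m f < ⊤ := by
  obtain ⟨h1, h2, M, hM⟩ := hf
  have hM0 : 0 ≤ M := (norm_nonneg _).trans (hM 0)
  have h3 : Nr m f ≤ ∫⁻ x, ENNReal.ofReal (M ^ (2 * m - 1)) * ‖f x‖ₑ := by
    unfold Nr
    refine lintegral_mono fun x => ?_
    have e : ‖f x‖ₑ ^ (2 * m) = ‖f x‖ₑ ^ (2 * m - 1) * ‖f x‖ₑ := by
      conv_rhs => rw [← ENNReal.rpow_one ‖f x‖ₑ, ← ENNReal.rpow_mul, ← ENNReal.rpow_add_of_nonneg _ _ (by linarith) (by norm_num)]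
      congr 1
      ring
    show ‖f x‖ₑ ^ (2 * m) ≤ _
    rw [e]
    refine mul_le_mul_left ?_ _
    rw [← ENNReal.ofReal_rpow_of_nonneg hM0 (by linarith)]
    refine ENNReal.rpow_le_rpow ?_ (by linarith)
    rw [← ofReal_norm]
    exact ENNReal.ofReal_le_ofReal (hM x)
  refine h3.trans_lt ?_
  rw [lintegral_const_mul _ h1.enorm]
  exact ENNReal.mul_lt_top ENNReal.ofReal_lt_top h2.2

theorem sum_rpow_le (s : Finset ℕ) (x : ℕ → ℝ≥0∞) (m : ℝ) (hm : 1 ≤ m) :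
    ∑ k ∈ s, x k ^ m ≤ (∑ k ∈ s, x k) ^ m := by
  have e : ∀ y : ℝ≥0∞, y ^ m = y ^ (m - 1) * y := by
    intro y
    conv_rhs => rw [← ENNReal.rpow_one y, ← ENNReal.rpow_mul, ← ENNReal.rpow_add_of_nonneg _ _ (by linarith) (by norm_num)]
    congr 1
    ring
  calc ∑ k ∈ s, x k ^ m = ∑ k ∈ s, x k ^ (m - 1) * x k := Finset.sum_congr rfl fun k _ => e _
    _ ≤ ∑ k ∈ s, (∑ j ∈ s, x j) ^ (m - 1) * x k := by
        refine Finset.sum_le_sum fun k hk => ?_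
        refine mul_le_mul_left (ENNReal.rpow_le_rpow ?_ (by linarith)) _
        exact Finset.single_le_sum (f := x) (fun _ _ => zero_le) hk
    _ = (∑ k ∈ s, x k) ^ m := by rw [← Finset.mul_sum, ← e]

/-- absorption -/
theorem absorb {x s c θ m : ℝ} (hm : 1 ≤ m) (hs : 0 ≤ s) (hc : 0 ≤ c) (hθ : θ = 1 / m)
    (h : x ≤ 2 * s + c * (s ^ θ * x ^ (1 - θ))) : x ≤ (4 + (2 * c) ^ m) * s := by
  have hp : 0 ≤ (2 * c) ^ m * s := by positivity
  by_cases h4 : x ≤ 4 * s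
  · nlinarith
  push Not at h4
  have hx : 0 < x := by linarith
  have hm0 : m ≠ 0 := by linarith
  have e1 : x ^ θ * x ^ (1 - θ) = x := by
    rw [← Real.rpow_add hx]
    simp
  have h5 : 0 < x ^ (1 - θ) := Real.rpow_pos_of_pos hx _
  have h6 : x ^ θ ≤ 2 * c * s ^ θ := by
    refine le_of_mul_le_mul_right ?_ h5
    nlinarith
  have h7 : (x ^ θ) ^ m ≤ (2 * c * s ^ θ) ^ m := Real.rpow_le_rpow (by positivity) h6 (by linarith)
  have e2 : ∀ y : ℝ, 0 ≤ y → (y ^ θ) ^ m = y := fun y hy => by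
    rw [← Real.rpow_mul hy, hθ, one_div_mul_cancel hm0, Real.rpow_one]
  rw [Real.mul_rpow (by positivity) (by positivity), e2 x hx.le, e2 s hs] at h7
  nlinarith

variable {m : ℝ} {M : ℕ} {a b : ℕ → ℝ} {H : ℕ → ℂ → ℂ}

theorem stepA (hm : 0 < m) {C : ℝ} (hE : ∀ (b b' : ℝ) (h₁ h₂ : ℂ → ℂ), Bd 0 b h₁ → Bd 0 b' h₂ →
      Nr m (Fi (fun ξ => h₁ ξ + h₂ ξ)) ≤ (Nr m (Fi h₁) + ENNReal.ofReal (1 + 1) * Nr m (Fi h₂)) +
        ENNReal.ofReal C * (∫⁻ x, ‖Fi h₂ x‖ₑ ^ 2 * ‖Fi h₁ x‖ₑ ^ (2 * m - 2)) +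
        ENNReal.ofReal (2 * m * |∫ x, ‖Fi h₁ x‖ ^ (2 * m - 2) * (conj (Fi h₁ x) * Fi h₂ x).re|))
    (hS : Sep 3 M a b H) : ∀ k, k ≤ M →
    Nr m (Fi (sm H k)) ≤ ENNReal.ofReal (1 + 1) * ∑ j ∈ Finset.range k, Nr m (Fi (H j)) +
      ENNReal.ofReal C * (∑ j ∈ Finset.range k, ∫⁻ x, ‖Fi (H j) x‖ₑ ^ 2 * ‖Fi (sm H j) x‖ₑ ^ (2 * m - 2)) +
      ENNReal.ofReal (2 * m) * ∑ j ∈ Finset.range k,
        ENNReal.ofReal |∫ x, ‖Fi (sm H j) x‖ ^ (2 * m - 2) * (conj (Fi (sm H j) x) * Fi (H j) x).re| := by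
  intro k
  induction k with
  | zero =>
    intro _
    rw [sm_zero, Fi_zero, Nr_zero hm]
    exact zero_le
  | succ k ih =>
    intro hk
    have hk' : k < M := by omega
    have ihk := ih hk'.le
    have hkey : Nr m (Fi (fun ξ => sm H k ξ + H k ξ)) ≤
        (Nr m (Fi (sm H k)) + ENNReal.ofReal (1 + 1) * Nr m (Fi (H k))) +
        ENNReal.ofReal C * (∫⁻ x, ‖Fi (H k) x‖ₑ ^ 2 * ‖Fi (sm H k) x‖ₑ ^ (2 * m - 2)) +
        ENNReal.ofReal (2 * m * |∫ x, ‖Fi (sm H k) x‖ ^ (2 * m - 2) * (conj (Fi (sm H k) x) * Fi (H k) x).re|) := by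
      rcases k with _ | l
      · refine hE (b 0) (b 0) (sm H 0) (H 0) ?_ (bd_zero (hS 0 hk').2.2.1)
        refine ⟨?_, ?_⟩
        · rw [sm_zero]
          exact contDiff_const
        · intro ξ hξ
          rw [sm_zero] at hξ
          exact absurd rfl hξ
      · have hl : l < M := by omega
        exact hE (b l) (b (l + 1)) (sm H (l + 1)) (H (l + 1))
          (sm_bd (by norm_num) hS hl) (bd_zero (hS (l + 1) hk').2.2.1)
    rw [ENNReal.ofReal_mul (by linarith : 0 ≤ 2 * m)] at hkey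
    rw [sm_succ, Finset.sum_range_succ, Finset.sum_range_succ, Finset.sum_range_succ]
    refine hkey.trans ?_
    refine (add_le_add_left (add_le_add_left (add_le_add_left ihk _) _) _).trans (le_of_eq ?_)
    ring

theorem stepB (hm : 1 ≤ m) (hf : ∀ k, k < M → Measurable (Fi (H k))) :
    ∑ j ∈ Finset.range M, Nr m (Fi (H j)) ≤ Sr m M H := by
  unfold Nr Sr
  rw [← lintegral_finsetSum _ fun j hj =>
    ((hf j (Finset.mem_range.1 hj)).enorm.pow_const (2 * m))]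
  refine lintegral_mono fun x => ?_
  have := sum_rpow_le (Finset.range M) (fun k => ‖Fi (H k) x‖ₑ ^ 2) m hm
  refine le_trans (le_of_eq ?_) this
  refine Finset.sum_congr rfl fun k _ => ?_
  rw [← ENNReal.rpow_natCast, ← ENNReal.rpow_mul]
  push_cast
  rfl

theorem stepC (hm : 1 < m) (hf : ∀ k, k < M → Measurable (Fi (H k))) {W : ℂ → ℝ≥0∞} {K : ℝ≥0∞} {X : ℝ≥0∞}
    (hW : Measurable W) (hu : ∀ k, k < M → ∀ x, ‖Fi (sm H k) x‖ₑ ≤ W x)
    (hX : ∫⁻ x, W x ^ (2 * m) ≤ K * X) :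
    ∑ j ∈ Finset.range M, (∫⁻ x, ‖Fi (H j) x‖ₑ ^ 2 * ‖Fi (sm H j) x‖ₑ ^ (2 * m - 2)) ≤
      (Sr m M H) ^ (1 / m) * (K * X) ^ (1 - 1 / m) := by
  have h1 : ∑ j ∈ Finset.range M, (∫⁻ x, ‖Fi (H j) x‖ₑ ^ 2 * ‖Fi (sm H j) x‖ₑ ^ (2 * m - 2)) ≤
      ∫⁻ x, (∑ j ∈ Finset.range M, ‖Fi (H j) x‖ₑ ^ 2) * W x ^ (2 * m - 2) := by
    have h2 : ∫⁻ x, (∑ j ∈ Finset.range M, ‖Fi (H j) x‖ₑ ^ 2) * W x ^ (2 * m - 2) =
        ∑ j ∈ Finset.range M, ∫⁻ x, ‖Fi (H j) x‖ₑ ^ 2 * W x ^ (2 * m - 2) := by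
      have hmeas : ∀ j ∈ Finset.range M, Measurable fun x => ‖Fi (H j) x‖ₑ ^ 2 * W x ^ (2 * m - 2) :=
        fun j hj => ((hf j (Finset.mem_range.1 hj)).enorm.pow_const 2).mul (hW.pow_const _)
      rw [← lintegral_finsetSum _ hmeas]
      refine lintegral_congr fun x => ?_
      rw [Finset.sum_mul]
    rw [h2]
    refine Finset.sum_le_sum fun j hj => lintegral_mono fun x => ?_
    exact mul_le_mul_right (ENNReal.rpow_le_rpow (hu j (Finset.mem_range.1 hj) x) (by linarith)) _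
  refine h1.trans ?_
  have hm0 : (0 : ℝ) < m := by linarith
  have hm1 : m - 1 ≠ 0 := by
    intro h
    linarith
  set q : ℝ := m / (m - 1) with hq
  have hpq : m.HolderConjugate q := by
    rw [Real.holderConjugate_iff]
    refine ⟨hm, ?_⟩
    rw [hq]
    field_simp
    ring
  have hS : Measurable fun x => ∑ j ∈ Finset.range M, ‖Fi (H j) x‖ₑ ^ 2 :=
    Finset.measurable_sum _ fun j hj => (hf j (Finset.mem_range.1 hj)).enorm.pow_const 2
  have hH := ENNReal.lintegral_mul_le_Lp_mul_Lq (volume : Measure ℂ) hpq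
    (f := fun x => ∑ j ∈ Finset.range M, ‖Fi (H j) x‖ₑ ^ 2) (g := fun x => W x ^ (2 * m - 2))
    hS.aemeasurable (hW.pow_const _).aemeasurable
  refine (le_of_eq ?_).trans (hH.trans ?_)
  · rfl
  · have e1 : ∫⁻ x, (∑ j ∈ Finset.range M, ‖Fi (H j) x‖ₑ ^ 2) ^ m = Sr m M H := rfl
    have e2 : ∫⁻ x, (W x ^ (2 * m - 2)) ^ q = ∫⁻ x, W x ^ (2 * m) := by
      refine lintegral_congr fun x => ?_
      rw [← ENNReal.rpow_mul]
      congr 1
      rw [hq]
      field_simp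
    have e3 : 1 / q = 1 - 1 / m := by
      rw [hq]
      field_simp
    rw [e1, e2, e3]
    refine mul_le_mul_right (ENNReal.rpow_le_rpow hX ?_) _
    rw [sub_nonneg, div_le_one hm0]
    exact hm.le

theorem t (hb : S_BAS) (hl : S_LOW) (hh : S_HLM) (h1 : R_ENU) (h2 : R_CRS) : R_REV := by
  rintro m hRg
  obtain ⟨hm11, hm3⟩ := id hRg
  have hm1 : 1 < m := by linarith
  have hm0 : (0 : ℝ) < m := by linarith
  obtain ⟨C₁, hC₁, hE⟩ := h1 m 1 hRg one_pos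
  obtain ⟨C₄, hC₄, hR⟩ := h2 m hRg
  obtain ⟨C₂, hC₂, hL⟩ := hl
  obtain ⟨C₃, hC₃, hX⟩ := hh (2 * m) (by linarith)
  have hK : 0 ≤ C₂ ^ (2 * m) * C₃ := by positivity
  refine ⟨4 + (2 * (C₁ * (C₂ ^ (2 * m) * C₃) ^ (1 - 1 / m) + 2 * m * C₄)) ^ m, by positivity, ?_⟩
  intro M a b H hS
  have hfm : ∀ k, k < M → Measurable (Fi (H k)) := fun k hk =>
    (hb (b k) (H k) (bd_zero (hS k hk).2.2.1)).1.measurable
  obtain ⟨b₀, hb₀⟩ := sm_bd' (by norm_num) hS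
  have hum : Measurable fun z => ‖Fi (sm H M) z‖ₑ := (hb b₀ _ hb₀).1.measurable.enorm
  have hfin : Nr m (Fi (sm H M)) ≠ ⊤ := (nr_lt hm1.le (hb b₀ _ hb₀).2.2.1).ne
  obtain ⟨hmx, hmx2⟩ := hX _ hum
  have hA := stepA hm0 hE hS M le_rfl
  have hB := stepB hm1.le hfm (M := M) (H := H)
  have hR' := hR M a b H 1 zero_le_one le_rfl hS (fun k hk => by
    rw [one_mul]
    exact step (by norm_num) hS (by omega))
  rw [mul_one] at hR'
  have hC := stepC hm1 hfm (M := M) (H := H)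
    (W := fun x => ENNReal.ofReal C₂ * mx (fun z => ‖Fi (sm H M) z‖ₑ) x)
    (K := ENNReal.ofReal (C₂ ^ (2 * m) * C₃)) (X := Nr m (Fi (sm H M)))
    (hmx.const_mul _) (by
      intro k hk x
      rcases k with _ | l
      · rw [sm_zero, Fi_zero]
        simp
      · have hl : l < M := by omega
        have h6 : 0 < b l := (hS l hl).1.trans_le (hS l hl).2.1
        have h7 := hL (b l) (b (M - 1)) (sm H (l + 1)) (fun ξ => ∑ j ∈ Finset.Ico (l + 1) M, H j ξ) x 0 h6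
          (sm_bd (by norm_num) hS hl) (tail_bd (by norm_num) hS hl)
        have e : (fun ξ => sm H (l + 1) ξ + ∑ j ∈ Finset.Ico (l + 1) M, H j ξ) = sm H M := by
          funext ξ
          exact Finset.sum_range_add_sum_Ico (fun j => H j ξ) (by omega)
        rw [e] at h7
        simpa using h7) (by
      simp only [ENNReal.mul_rpow_of_nonneg _ _ (by positivity : (0 : ℝ) ≤ 2 * m)]
      rw [lintegral_const_mul _ (hmx.pow_const _)]
      have e1 : ENNReal.ofReal C₂ ^ (2 * m) = ENNReal.ofReal (C₂ ^ (2 * m)) :=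
        ENNReal.ofReal_rpow_of_nonneg hC₂ (by positivity)
      rw [e1, ENNReal.ofReal_mul (by positivity), mul_assoc]
      exact mul_le_mul_right hmx2 _)
  have hD : Nr m (Fi (sm H M)) ≤ ENNReal.ofReal (1 + 1) * Sr m M H +
      ENNReal.ofReal C₁ * ((Sr m M H) ^ (1 / m) *
        (ENNReal.ofReal (C₂ ^ (2 * m) * C₃) * Nr m (Fi (sm H M))) ^ (1 - 1 / m)) +
      ENNReal.ofReal (2 * m) * (ENNReal.ofReal C₄ * ((Sr m M H) ^ (1 / m) * (Nr m (Fi (sm H M))) ^ (1 - 1 / m))) :=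
    hA.trans (add_le_add (add_le_add (mul_le_mul_right hB _) (mul_le_mul_right hC _)) (mul_le_mul_right hR' _))
  by_cases hStop : Sr m M H = ⊤
  · rw [hStop, ENNReal.mul_top]
    · exact le_top
    · rw [Ne, ENNReal.ofReal_eq_zero, not_le]
      positivity
  · generalize Nr m (Fi (sm H M)) = X at hD hfin ⊢
    generalize Sr m M H = S at hD hStop ⊢
    lift X to NNReal using hfin
    lift S to NNReal using hStop
    have hθ : 0 ≤ 1 - 1 / m := by
      rw [sub_nonneg, div_le_one hm0]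
      exact hm1.le
    have e1 : (X : ℝ≥0∞) = ENNReal.ofReal (X : ℝ) := (ENNReal.ofReal_coe_nnreal).symm
    have e2 : (S : ℝ≥0∞) = ENNReal.ofReal (S : ℝ) := (ENNReal.ofReal_coe_nnreal).symm
    rw [e1, e2, ← ENNReal.ofReal_mul hK, ENNReal.ofReal_rpow_of_nonneg S.coe_nonneg (by positivity),
      ENNReal.ofReal_rpow_of_nonneg (by positivity) hθ, ENNReal.ofReal_rpow_of_nonneg X.coe_nonneg hθ,
      ← ENNReal.ofReal_mul (p := (S : ℝ) ^ (1 / m)) (by positivity),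
      ← ENNReal.ofReal_mul (p := (S : ℝ) ^ (1 / m)) (by positivity),
      ← ENNReal.ofReal_mul hC₁, ← ENNReal.ofReal_mul hC₄, ← ENNReal.ofReal_mul (by positivity : 0 ≤ 2 * m),
      ← ENNReal.ofReal_mul (by norm_num), ← ENNReal.ofReal_add (by positivity)
        (by positivity), ← ENNReal.ofReal_add (by positivity)
        (by positivity), ENNReal.ofReal_le_ofReal_iff (by positivity)] at hD
    rw [e1, e2, ← ENNReal.ofReal_mul (by positivity)]
    refine ENNReal.ofReal_le_ofReal ?_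
    refine absorb hm1.le S.coe_nonneg (by positivity) rfl ?_
    refine hD.trans (le_of_eq ?_)
    rw [Real.mul_rpow hK X.coe_nonneg]
    ring

end Pool.Agent.H11PB.RREV
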